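import Pool.Agent.N266.LS.Stm

/-!
# Project LS, task RECT (helper539): summation over points of a square
-/

set_option autoImplicit false

open MeasureTheory Set Filter Topology Function

namespace Pool.Agent.N539.LS

open Pool.Agent.N273.LT
open Pool.Agent.N266.LS (S_RECT)

theorem t_RECT : S_RECT := by
  classical
  intro φ hU Z R hZ st1 st2 X₀ Y₀ a b w E N C₁ ι _ p d ha hb hw hE hN hR hp1 hp2 hd hz hmult
  have hC1 : 0 ≤ C₁ := le_trans (Nat.cast_nonneg _) (hmult 0 0)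
  obtain ⟨Q, hQ⟩ : ∃ Q : ι → Set (ℝ × ℝ), Q = fun i => Icc ((p i).1 - b) ((p i).1 + b) ×ˢ
    Icc ((p i).2 - b) ((p i).2 + b) := ⟨_, rfl⟩
  have hQmem : ∀ i P, P ∈ Q i ↔ (|P.1 - (p i).1| ≤ b ∧ |P.2 - (p i).2| ≤ b) := by
    intro i P
    rw [hQ]
    simp only [mem_prod, mem_Icc, abs_le]
    constructor
    · rintro ⟨⟨h1, h2⟩, h3, h4⟩
      refine ⟨⟨?_, ?_⟩, ?_, ?_⟩ <;> linarith
    · rintro ⟨⟨h1, h2⟩, h3, h4⟩
      refine ⟨⟨?_, ?_⟩, ?_, ?_⟩ <;> linarith
  have hQm : ∀ i, MeasurableSet (Q i) := by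
    intro i; rw [hQ]; exact measurableSet_Icc.prod measurableSet_Icc
  obtain ⟨z₁, hz₁⟩ : ∃ z₁ : ℝ × ℝ → ENNReal, z₁ = fun P =>
    ∫⁻ τ in Icc (-w) w, (n1 φ w (P.1 + τ) P.2 : ENNReal) := ⟨_, rfl⟩
  obtain ⟨z₂, hz₂⟩ : ∃ z₂ : ℝ × ℝ → ENNReal, z₂ = fun P =>
    ∫⁻ τ in Icc (-w) w, (n2 φ w P.1 (P.2 + τ) : ENNReal) := ⟨_, rfl⟩
  have mz₁ : Measurable z₁ := by rw [hz₁]; exact z1_meas hU hw
  have mz₂ : Measurable z₂ := by rw [hz₂]; exact z2_meas hU hw
  obtain ⟨EE, hEE⟩ : ∃ EE : ℝ × ℝ → ENNReal, EE = fun P => ENNReal.ofReal E *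
    (1 + ENNReal.ofReal N * (z₁ P + z₂ P)) := ⟨_, rfl⟩
  have mE : Measurable EE := by
    rw [hEE]
    exact measurable_const.mul (measurable_const.add (measurable_const.mul (mz₁.add mz₂)))
  -- pointwise estimate
  have hpt : ∀ i, ∀ P ∈ Q i, ENNReal.ofReal (d i) ≤ EE P := by
    intro i P hP
    obtain ⟨a1, a2⟩ := (hQmem i P).1 hP
    have h1 := hz i P.1 P.2 a1 a2
    refine (ENNReal.ofReal_le_ofReal h1).trans ?_
    rw [ENNReal.ofReal_mul hE, hEE]
    simp only
    gcongr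
    refine ENNReal.ofReal_add_le.trans ?_
    rw [ENNReal.ofReal_one, mul_comm, ENNReal.ofReal_mul hN]
    gcongr
    rw [hz₁, hz₂]
    exact ofReal_zz hU hw P.1 P.2
  -- integration over the boxes
  have hvol : ∀ i, volume (Q i) = ENNReal.ofReal ((2 * b) ^ 2) := by
    intro i
    rw [hQ]
    simp only
    rw [Measure.volume_eq_prod, Measure.prod_prod, Real.volume_Icc, Real.volume_Icc,
      ← ENNReal.ofReal_mul (by linarith)]
    congr 1
    ring
  have hbox : ∀ i, ENNReal.ofReal (d i * (2 * b) ^ 2) ≤ ∫⁻ P in Q i, EE P := by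
    intro i
    calc ENNReal.ofReal (d i * (2 * b) ^ 2)
        = ∫⁻ _ in Q i, ENNReal.ofReal (d i) := by
          rw [setLIntegral_const, hvol, ← ENNReal.ofReal_mul (hd i)]
      _ ≤ _ := setLIntegral_mono mE fun P hP => hpt i P hP
  obtain ⟨BB, hBB⟩ : ∃ BB : Set (ℝ × ℝ), BB = Icc (X₀ - a - b) (X₀ + a + b) ×ˢ
    Icc (Y₀ - a - b) (Y₀ + a + b) := ⟨_, rfl⟩
  have hBBm : MeasurableSet BB := by rw [hBB]; exact measurableSet_Icc.prod measurableSet_Icc
  have hsum : ∑ i, ∫⁻ P in Q i, EE P ≤ ENNReal.ofReal C₁ * ∫⁻ P in BB, EE P := by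
    have e1 : ∑ i, ∫⁻ P in Q i, EE P = ∫⁻ P, ∑ i, (Q i).indicator EE P := by
      rw [lintegral_finsetSum _ fun i _ => mE.indicator (hQm i)]
      refine Finset.sum_congr rfl fun i _ => ?_
      rw [lintegral_indicator (hQm i)]
    rw [e1, ← lintegral_const_mul _ mE, ← lintegral_indicator hBBm]
    refine lintegral_mono fun P => ?_
    have e2 : ∑ i, (Q i).indicator EE P =
        ((Finset.univ.filter fun i => P ∈ Q i).card : ENNReal) * EE P := by
      rw [Finset.card_filter]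
      push_cast
      rw [Finset.sum_mul]
      refine Finset.sum_congr rfl fun i _ => ?_
      by_cases hP : P ∈ Q i
      · rw [indicator_of_mem hP, if_pos hP, one_mul]
      · rw [indicator_of_notMem hP, if_neg hP, zero_mul]
    rw [e2]
    rcases (Finset.univ.filter fun i => P ∈ Q i).eq_empty_or_nonempty with h3 | h3
    · rw [h3]
      simp
    · obtain ⟨i, hi⟩ := h3
      rw [Finset.mem_filter] at hi
      obtain ⟨hP1, hP2⟩ := (hQmem i P).1 hi.2
      have hPB : P ∈ BB := by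
        rw [hBB]
        have b1 := abs_le.1 hP1
        have b2 := abs_le.1 hP2
        have b3 := abs_le.1 (hp1 i)
        have b4 := abs_le.1 (hp2 i)
        refine ⟨⟨?_, ?_⟩, ⟨?_, ?_⟩⟩
        · linarith [b1.1, b3.1]
        · linarith [b1.2, b3.2]
        · linarith [b2.1, b4.1]
        · linarith [b2.2, b4.2]
      rw [indicator_of_mem hPB]
      have h5 : ((Finset.univ.filter fun i => P ∈ Q i).card : ℝ) ≤ C₁ := by
        refine le_trans ?_ (hmult P.1 P.2)
        have h6 : ((Finset.univ.filter fun i => P ∈ Q i) : Set ι) ⊆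
            {i | |P.1 - (p i).1| ≤ b ∧ |P.2 - (p i).2| ≤ b} := by
          intro j hj
          rw [Finset.mem_coe, Finset.mem_filter] at hj
          exact (hQmem j P).1 hj.2
        have h7 := Set.ncard_le_ncard h6 (Set.toFinite _)
        rw [Set.ncard_coe_finset] at h7
        exact_mod_cast h7
      rw [← ENNReal.ofReal_natCast]
      gcongr
  -- the integral over the square
  have l1 : X₀ + a + b - (X₀ - a - b) = 2 * a + 2 * b := by ring
  have l2 : Y₀ + a + b - (Y₀ - a - b) = 2 * a + 2 * b := by ring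
  have hI₁ : ∫⁻ P in BB, z₁ P ≤ ENNReal.ofReal (2 * w * Z * (2 * w) * (2 * a + 2 * b)) := by
    rw [hBB, hz₁, ← l1]
    refine I1_bound hU hw (by linarith) hZ ?_
    intro x s n hn
    exact st1 x _ _ n (by linarith) hn
  have hI₂ : ∫⁻ P in BB, z₂ P ≤ ENNReal.ofReal (2 * w * Z * (2 * w) * (2 * a + 2 * b)) := by
    rw [hBB, hz₂, ← l2]
    refine I2_bound hU hw (by linarith) hZ ?_
    intro x s n hn
    exact st2 x _ _ n (by linarith) hn
  obtain ⟨J, hJ⟩ : ∃ J : ℝ, J = 2 * w * Z * (2 * w) * (2 * a + 2 * b) := ⟨_, rfl⟩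
  rw [← hJ] at hI₁ hI₂
  have hJ0 : 0 ≤ J := by rw [hJ]; positivity
  have hBE : ∫⁻ P in BB, EE P ≤ ENNReal.ofReal (E * ((2 * a + 2 * b) ^ 2 + N * (J + J))) := by
    have hvB : ∫⁻ _ in BB, (1 : ENNReal) = ENNReal.ofReal ((2 * a + 2 * b) ^ 2) := by
      rw [setLIntegral_one, hBB, Measure.volume_eq_prod, Measure.prod_prod, Real.volume_Icc,
        Real.volume_Icc, ← ENNReal.ofReal_mul (by linarith)]
      congr 1
      ring
    have k1 : Measurable fun P => z₁ P + z₂ P := mz₁.add mz₂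
    have k2 : Measurable fun P => ENNReal.ofReal N * (z₁ P + z₂ P) :=
      measurable_const.mul k1
    have k3 : Measurable fun P => 1 + ENNReal.ofReal N * (z₁ P + z₂ P) :=
      measurable_const.add k2
    have k4 : Measurable fun _ : ℝ × ℝ => (1 : ENNReal) := measurable_const
    rw [hEE]
    simp only
    rw [lintegral_const_mul _ k3, lintegral_add_left k4, lintegral_const_mul _ k1,
      lintegral_add_left mz₁, hvB, ENNReal.ofReal_mul hE]
    refine mul_le_mul' le_rfl ?_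
    rw [ENNReal.ofReal_add (by positivity) (by positivity)]
    refine add_le_add le_rfl ?_
    rw [ENNReal.ofReal_mul hN, ENNReal.ofReal_add hJ0 hJ0]
    exact mul_le_mul' le_rfl (add_le_add hI₁ hI₂)
  have hfin : ENNReal.ofReal (∑ i, d i * (2 * b) ^ 2) ≤
      ENNReal.ofReal (C₁ * (E * ((2 * a + 2 * b) ^ 2 + N * (J + J)))) := by
    rw [ENNReal.ofReal_sum_of_nonneg fun i _ => mul_nonneg (hd i) (sq_nonneg _)]
    refine (Finset.sum_le_sum fun i _ => hbox i).trans (hsum.trans ?_)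
    rw [ENNReal.ofReal_mul hC1]
    gcongr
  rw [ENNReal.ofReal_le_ofReal_iff (by positivity), ← Finset.sum_mul] at hfin
  refine hfin.trans (le_of_eq ?_)
  rw [hJ]
  ring

end Pool.Agent.N539.LS
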