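import Pool.Agent.N266.LS.Stm

/-!
# Project LS, task SUM (helper539): sum over all scales
-/

set_option autoImplicit false

open MeasureTheory Set Filter Topology Function

namespace Pool.Agent.N539.LS

open Pool.Agent.N266.LS
open Pool.Agent.Y291.DB

theorem nn_le {L lam : ℝ} (hlam : 0 < lam) (p : ℝ × ℝ) : nn L lam p ≤ 2 * Real.sqrt (1 + lam) := by
  unfold nn D2
  have h1 : Real.sqrt lam ≤ 1 + lam := by
    rw [Real.sqrt_le_left (by linarith)]
    nlinarith
  have h2 : Real.sin (2 * Real.pi * p.1 / L) ^ 2 ≤ 1 := Real.sin_sq_le_one _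
  have h3 : Real.sin p.2 ^ 2 ≤ 1 := Real.sin_sq_le_one _
  have h4 : (2 : ℝ) * Real.sqrt (1 + lam) = Real.sqrt (4 * (1 + lam)) := by
    rw [Real.sqrt_mul (by norm_num), show (4 : ℝ) = 2 ^ 2 by norm_num,
      Real.sqrt_sq (by norm_num)]
  rw [h4]
  apply Real.sqrt_le_sqrt
  nlinarith

theorem one_le_nn {L lam : ℝ} (hlam : 0 < lam) (p : ℝ × ℝ) : 1 ≤ nn L lam p := by
  unfold nn D2
  rw [Real.one_le_sqrt]
  have := Real.sqrt_nonneg lam
  have : 0 ≤ lam * (Real.sin (2 * Real.pi * p.1 / L) ^ 2 + Real.sin p.2 ^ 2) := by positivity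
  linarith

theorem geo (J : ℕ) : ∑ j ∈ Finset.range (J + 1), (4 : ℝ) ^ j ≤ 2 * 4 ^ J := by
  induction J with
  | zero => norm_num
  | succ J ih =>
    rw [Finset.sum_range_succ, pow_succ]
    have : (0 : ℝ) < 4 ^ J := by positivity
    linarith

theorem t_SUM (hL : S_LEVEL) : S_SUM := by
  classical
  intro L m K C C₁ hL0 hm hK hC hC1
  obtain ⟨A, hA, H⟩ := hL L m K C C₁ hL0 hm hK hC hC1
  have hπ := Real.pi_pos
  refine ⟨40 * A, by positivity, ?_⟩
  intro f g lam φ hLM hE ι _ c hmult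
  have hlam := hE.pos
  have hρx : ∀ p : ℝ × ℝ, dens f g (p.1 + L, p.2 + 0) = dens f g p := fun p => by
    simp [dens, hLM.pf]
  have hρy : ∀ p : ℝ × ℝ, dens f g (p.1, p.2 + 2 * Real.pi) = dens f g p := fun p => by
    simp [dens, hLM.pg]
  -- reduced centers
  have hred : ∀ i, ∃ p : ℝ × ℝ, p.1 ∈ Set.Ico (-(L / 4)) (-(L / 4) + L) ∧
      p.2 ∈ Set.Ico (-(Real.pi / 2)) (-(Real.pi / 2) + 2 * Real.pi) ∧
      ∀ q, gdist (dens f g) L 0 p q = gdist (dens f g) L 0 (c i) q := by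
    intro i
    obtain ⟨m, n, h1, h2⟩ := reduce hL0 0 (-(L / 4)) (-(Real.pi / 2)) (c i)
    exact ⟨_, h1, h2, fun q => gdist_shift_left (per_all hρx hρy) (c i) q m n⟩
  choose p hp1 hp2 hp3 using hred
  have hdisc : ∀ i r, disc (dens f g) L 0 (p i) r = disc (dens f g) L 0 (c i) r := by
    intro i r
    unfold disc
    simp only [hp3]
  have hdoub : ∀ i r, doubling (dens f g) L 0 φ (p i) r = doubling (dens f g) L 0 φ (c i) r := by
    intro i r
    unfold doubling
    simp only [hdisc]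
  -- classes
  have hj : ∀ i, ∃ j : ℕ, (2 : ℝ) ^ j ≤ nn L lam (p i) ∧ nn L lam (p i) < 2 ^ (j + 1) := fun i =>
    exists_nat_pow_near (one_le_nn hlam (p i)) one_lt_two
  choose j hj1 hj2 using hj
  have hk : ∀ i, ∃ k : Fin 2, |(p i).1 - ((k : ℕ) : ℤ) * (L / 2)| ≤ L / 4 := by
    intro i
    have h := hp1 i
    rcases le_or_gt (p i).1 (L / 4) with h1 | h1
    · refine ⟨0, ?_⟩
      rw [abs_le]
      constructor
      · simp; linarith [h.1]
      · simp; linarith
    · refine ⟨1, ?_⟩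
      rw [abs_le]
      constructor
      · simp; linarith
      · simp; linarith [h.2]
  choose k hk1 using hk
  have hl : ∀ i, ∃ l : Fin 2, |(p i).2 - ((l : ℕ) : ℤ) * Real.pi| ≤ Real.pi / 2 := by
    intro i
    have h := hp2 i
    rcases le_or_gt (p i).2 (Real.pi / 2) with h1 | h1
    · refine ⟨0, ?_⟩
      rw [abs_le]
      constructor
      · simp; linarith [h.1]
      · simp; linarith
    · refine ⟨1, ?_⟩
      rw [abs_le]
      constructor
      · simp; linarith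
      · simp; linarith [h.2]
  choose l hl1 using hl
  obtain ⟨s, hs⟩ : ∃ s, s = Real.sqrt (1 + lam) := ⟨_, rfl⟩
  have hs1 : 1 ≤ s := by
    rw [hs, Real.one_le_sqrt]; linarith
  have hs2 : s ^ 2 = 1 + lam := by rw [hs, Real.sq_sqrt (by linarith)]
  obtain ⟨J, hJ⟩ : ∃ J, J = Nat.log 2 ⌊2 * s⌋₊ := ⟨_, rfl⟩
  have hfl : ⌊2 * s⌋₊ ≠ 0 := by
    have : 0 < ⌊2 * s⌋₊ := Nat.floor_pos.2 (by linarith)
    omega
  have hJ1 : (2 : ℝ) ^ J ≤ 2 * s := by
    have h1 : 2 ^ J ≤ ⌊2 * s⌋₊ := by rw [hJ]; exact Nat.pow_log_le_self 2 hfl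
    calc (2 : ℝ) ^ J = ((2 ^ J : ℕ) : ℝ) := by push_cast; rfl
      _ ≤ (⌊2 * s⌋₊ : ℝ) := by exact_mod_cast h1
      _ ≤ 2 * s := Nat.floor_le (by linarith)
  have hJ2 : ∀ i, j i ≤ J := by
    intro i
    rw [hJ]
    refine Nat.le_log_of_pow_le (by norm_num) ?_
    refine Nat.le_floor ?_
    push_cast
    rw [hs]
    exact (hj1 i).trans (nn_le hlam (p i))
  have hJ3 : ((J : ℝ) + 1) ≤ 2 ^ J := by
    have : J + 1 ≤ 2 ^ J := Nat.lt_two_pow_self
    exact_mod_cast this
  obtain ⟨κ, hκ⟩ : ∃ κ : ι → ℕ × (Fin 2 × Fin 2), κ = fun i => (j i, (k i, l i)) := ⟨_, rfl⟩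
  obtain ⟨d, hd⟩ : ∃ d : ι → ℝ, d = fun i =>
    max (doubling (dens f g) L 0 φ (c i) (C / Real.sqrt lam)) 0 := ⟨_, rfl⟩
  have hmaps : ∀ i ∈ (Finset.univ : Finset ι), κ i ∈ Finset.range (J + 1) ×ˢ
      (Finset.univ : Finset (Fin 2 × Fin 2)) := by
    intro i _
    rw [hκ, Finset.mem_product]
    exact ⟨Finset.mem_range.2 (Nat.lt_succ_of_le (hJ2 i)), Finset.mem_univ _⟩
  have hcls : ∀ t ∈ Finset.range (J + 1) ×ˢ (Finset.univ : Finset (Fin 2 × Fin 2)),
      ∑ i ∈ Finset.univ.filter (fun i => κ i = t), d i ≤ A * (4 ^ t.1 + s) := by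
    rintro ⟨t1, t2, t3⟩ _
    have e1 : ∑ i ∈ Finset.univ.filter (fun i => κ i = (t1, (t2, t3))), d i =
        ∑ i : {i // κ i = (t1, (t2, t3))}, d i := by
      rw [← Finset.sum_subtype_eq_sum_filter]
      simp
    rw [e1]
    have hkk : ∀ i : {i // κ i = (t1, (t2, t3))}, j i = t1 ∧ k i = t2 ∧ l i = t3 := by
      rintro ⟨i, hi⟩
      rw [hκ] at hi
      simp only [Prod.mk.injEq] at hi
      exact hi
    have h := H f g lam φ hLM hE t1 ((t2 : ℕ) : ℤ) ((t3 : ℕ) : ℤ) {i // κ i = (t1, (t2, t3))}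
      (fun i => p i) (fun i => by
        have := hk1 i
        rw [(hkk i).2.1] at this
        exact this) (fun i => by
        have := hl1 i
        rw [(hkk i).2.2] at this
        exact this) (fun i => by
        have := hj1 i
        rw [(hkk i).1] at this
        exact this) (fun i => by
        have := hj2 i
        rw [(hkk i).1] at this
        exact this.le) (fun q => by
        refine le_trans ?_ (hmult q)
        have : ({i : {i // κ i = (t1, (t2, t3))} |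
            q ∈ disc (dens f g) L 0 (p i) (C / Real.sqrt lam)}).ncard ≤
            ({i | q ∈ disc (dens f g) L 0 (c i) (C / Real.sqrt lam)}).ncard := by
          refine Set.ncard_le_ncard_of_injOn (fun i => (i : ι)) ?_ ?_ (Set.toFinite _)
          · intro i hi
            simp only [Set.mem_setOf_eq] at hi ⊢
            rw [← hdisc]
            exact hi
          · exact Subtype.val_injective.injOn
        exact_mod_cast this)
    rw [hs]
    refine le_trans (le_of_eq ?_) h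
    refine Finset.sum_congr rfl fun i _ => ?_
    rw [hd, hdoub]
  have hfib : ∑ i, d i = ∑ t ∈ Finset.range (J + 1) ×ˢ (Finset.univ : Finset (Fin 2 × Fin 2)),
      ∑ i ∈ Finset.univ.filter (fun i => κ i = t), d i :=
    (Finset.sum_fiberwise_of_maps_to hmaps d).symm
  have htot : ∑ i, d i ≤ ∑ t ∈ Finset.range (J + 1) ×ˢ (Finset.univ : Finset (Fin 2 × Fin 2)),
      A * (4 ^ t.1 + s) := by
    rw [hfib]
    exact Finset.sum_le_sum hcls
  have hval : ∑ t ∈ Finset.range (J + 1) ×ˢ (Finset.univ : Finset (Fin 2 × Fin 2)),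
      A * ((4 : ℝ) ^ t.1 + s) = 4 * A * (∑ j ∈ Finset.range (J + 1), (4 : ℝ) ^ j + (J + 1) * s) := by
    rw [Finset.sum_product]
    simp only [Finset.sum_const, Finset.card_univ, Fintype.card_prod, Fintype.card_fin, nsmul_eq_mul]
    rw [← Finset.mul_sum, ← Finset.mul_sum, Finset.sum_add_distrib, Finset.sum_const,
      Finset.card_range, nsmul_eq_mul]
    push_cast
    ring
  have h4 : (4 : ℝ) ^ J ≤ 4 * s ^ 2 := by
    have : (4 : ℝ) ^ J = (2 ^ J) ^ 2 := by
      rw [← pow_mul, mul_comm, pow_mul]; norm_num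
    rw [this]
    have h0 : (0 : ℝ) ≤ 2 ^ J := by positivity
    nlinarith
  have h5 : ((J : ℝ) + 1) * s ≤ 2 * s ^ 2 := by nlinarith
  have h6 := geo J
  have h7 : ∑ i, d i ≤ 4 * A * (10 * s ^ 2) := by
    refine htot.trans ?_
    rw [hval]
    gcongr
    linarith
  rw [hs2] at h7
  have h8 : ∑ i, max (doubling (dens f g) L 0 φ (c i) (C / Real.sqrt lam)) 0 = ∑ i, d i := by
    rw [hd]
  rw [h8]
  linarith

end Pool.Agent.N539.LS
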